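import Mathlib
import Pool.Agent.Mg.F92191bp.G9695df
import Pool.Agent.MP_92191b_al.K3.H9
import Pool.Agent.MP_92191b_al.K3.PL3
import Pool.Agent.Mg.F92191bp.G695593
import Pool.Agent.Mg.F92191bp.G9dc04d

namespace Pool.Agent.Results.MP_92191b_al.AllPowers

open Pool.Agent.MP_92191b_al

/-- For all `k ≥ 3` and `m ≥ 2`, the wreath product `S_k wr S_m` in its power action (the group
generated by the coordinatewise permutations of letters and the permutations of coordinates)
synchronizes every map with two kernel classes of different sizes. -/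
theorem result (k m : ℕ) (hk : 3 ≤ k) (_hm : 2 ≤ m)
    (G : Subgroup (Equiv.Perm (Fin m → Fin k)))
    (hG : G = Subgroup.closure
      ({g : Equiv.Perm (Fin m → Fin k) |
          ∃ h : Fin m → Equiv.Perm (Fin k), ∀ x i, g x i = h i (x i)} ∪
        {g : Equiv.Perm (Fin m → Fin k) | ∃ π : Equiv.Perm (Fin m), ∀ x i, g x i = x (π i)}))
    (f : (Fin m → Fin k) → (Fin m → Fin k))
    (hf : ∃ y ∈ Set.range f, ∃ z ∈ Set.range f, (f ⁻¹' {y}).ncard ≠ (f ⁻¹' {z}).ncard) :
    ∃ c ∈ Subsemigroup.closure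
        ({t : Function.End (Fin m → Fin k) | ∃ g ∈ G, ∀ x, t x = g x} ∪
          {t : Function.End (Fin m → Fin k) | ∀ x, t x = f x}),
      ∃ y : Fin m → Fin k, ∀ x, c x = y := by
  obtain ⟨_, ⟨a, rfl⟩, _, ⟨b, rfl⟩, hab⟩ := hf
  by_contra hc
  have hcard : ∀ a, (f ⁻¹' {f a}).ncard = (Finset.univ.filter (fun x => f x = f a)).card := by
    intro a
    rw [← Set.ncard_coe_finset]
    congr 1
    ext x
    simp
  rw [hcard, hcard] at hab
  have hA : X.StmtAX (Fin m) (Fin k) X.Exo := by
    rcases Nat.eq_or_lt_of_le hk with rfl | hk4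
    · exact K3.a3 (K3.hThm9 K3.sys (K3.loc K3.pl3) K3.prop
        (K3.fin K3.odd K3.kraft K3.two (K3.ball K3.two) K3.sz))
    · exact X4.thmA_ge4 hk4
  refine hab (X.unifX hk hA f (fun c h h' => hc ⟨c, ?_, h'⟩) a b)
  clear h'
  induction h using Submonoid.closure_induction with
  | mem t ht =>
    refine Subsemigroup.subset_closure ?_
    rcases ht with ⟨σ, π, rfl⟩ | ht
    · left
      refine ⟨Equiv.piCongrRight σ * Equiv.arrowCongr π.symm (Equiv.refl _), ?_, fun x => ?_⟩
      · rw [hG]
        refine Subgroup.mul_mem _ (Subgroup.subset_closure (Or.inl ⟨σ, fun x i => rfl⟩))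
          (Subgroup.subset_closure (Or.inr ⟨π, fun x i => rfl⟩))
      · rfl
    · right
      intro x
      rw [Set.mem_singleton_iff.1 ht]
  | one => exact Subsemigroup.subset_closure (Or.inl ⟨1, G.one_mem, fun x => rfl⟩)
  | mul s t _ _ hs ht => exact Subsemigroup.mul_mem _ hs ht

end Pool.Agent.Results.MP_92191b_al.AllPowers
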