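import Mathlib
import Pool.Agent.MP_92191b_al.Rk.Main

namespace Pool.Agent.Results.MP_92191b_al.Ranks

/-- The ranks of the singular maps that the wreath product `S_k wr S_m` in its power action does
not synchronize: the powers `k ^ i` with `1 ≤ i < m` and, only when `k` is not a prime power, the
size and the index of a code that meets the bound given by a product of a cube and a ball. -/
theorem result (k m r : ℕ) (hk : 3 ≤ k) (G : Subgroup (Equiv.Perm (Fin m → Fin k)))
    (hG : G = Subgroup.closure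
      ({g : Equiv.Perm (Fin m → Fin k) |
          ∃ h : Fin m → Equiv.Perm (Fin k), ∀ x i, g x i = h i (x i)} ∪
        {g : Equiv.Perm (Fin m → Fin k) | ∃ π : Equiv.Perm (Fin m), ∀ x i, g x i = x (π i)})) :
    (∃ f : (Fin m → Fin k) → (Fin m → Fin k), ¬Function.Injective f ∧ (Set.range f).ncard = r ∧
      ¬∃ c ∈ Subsemigroup.closure
        ({t : Function.End (Fin m → Fin k) | ∃ g ∈ G, ∀ x, t x = g x} ∪
          {t : Function.End (Fin m → Fin k) | ∀ x, t x = f x}),
        ∃ y : Fin m → Fin k, ∀ x, c x = y) ↔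
    (∃ i, 1 ≤ i ∧ i < m ∧ r = k ^ i) ∨
      (¬IsPrimePow k ∧ ∃ (e j : ℕ) (C : Finset (Fin m → Fin k)), 1 ≤ e ∧ 2 ≤ C.card ∧
        (∀ x ∈ C, ∀ y ∈ C, x ≠ y → 2 * e + j < hammingDist x y) ∧
        C.card * (k ^ j * ∑ i ∈ Finset.range (e + 1), (m - j).choose i * (k - 1) ^ i) = k ^ m ∧
        (r = C.card ∨ r * C.card = k ^ m)) :=
  Pool.Agent.MP_92191b_al.Rk.ranks k m r hk G hG

end Pool.Agent.Results.MP_92191b_al.Ranks
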